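import Pool.Agent.Helper64.CT.Stmts

set_option autoImplicit false

/-! # Gluing circle graphs along a split -/

namespace Pool.Agent.Helper64.CT

open Pool.Agent.Helper64.HG (Ovl Model Circ)

/-- the endpoints of one side in the lexicographic order -/
noncomputable def spgf (i j : ℕ) (c t : ℝ) : ℕ ×ₗ ℝ := toLex (if t < c then i else j, t)

theorem spgf_lt {i j : ℕ} (hij : i < j) (c : ℝ) {t t' : ℝ} :
    spgf i j c t < spgf i j c t' ↔ t < t' := by
  have key : ∀ {t t' : ℝ}, t < t' → spgf i j c t < spgf i j c t' := by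
    intro t t' h
    simp only [spgf, Prod.Lex.toLex_lt_toLex]
    by_cases h1 : t < c
    · by_cases h2 : t' < c
      · simp [h1, h2, h]
      · simp [h1, h2, hij]
    · have h2 : ¬ t' < c := fun h3 => h1 (h.trans h3)
      simp [h1, h2, h]
  refine ⟨fun h => ?_, key⟩
  by_contra hcon
  rcases (not_lt.1 hcon).lt_or_eq with h1 | h1
  · exact absurd h (key h1).not_gt
  · rw [h1] at h
    exact absurd h (lt_irrefl _)

theorem spgf_inj {i j : ℕ} (c : ℝ) {t t' : ℝ} (h : spgf i j c t = spgf i j c t') : t = t' := by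
  simp only [spgf, EmbeddingLike.apply_eq_iff_eq, Prod.mk.injEq] at h
  exact h.2

theorem spgf_ne (c c' t t' : ℝ) : spgf 0 2 c t ≠ spgf 1 3 c' t' := by
  intro h
  simp only [spgf, EmbeddingLike.apply_eq_iff_eq, Prod.mk.injEq] at h
  have := h.1
  split_ifs at this <;> omega

theorem spgf_cross (c c' t1 t2 s1 s2 : ℝ) :
    ((spgf 0 2 c t1 < spgf 1 3 c' s1 ∧ spgf 1 3 c' s1 < spgf 0 2 c t2 ∧
      spgf 0 2 c t2 < spgf 1 3 c' s2) ∨
     (spgf 1 3 c' s1 < spgf 0 2 c t1 ∧ spgf 0 2 c t1 < spgf 1 3 c' s2 ∧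
      spgf 1 3 c' s2 < spgf 0 2 c t2)) ↔ ((t1 < c ∧ ¬ t2 < c) ∧ s1 < c' ∧ ¬ s2 < c') := by
  simp only [spgf, Prod.Lex.toLex_lt_toLex]
  by_cases h1 : t1 < c <;> by_cases h2 : t2 < c <;> by_cases h3 : s1 < c' <;>
    by_cases h4 : s2 < c' <;> simp [h1, h2, h3, h4]

theorem spg_total {V : Type} (S : Set V) (l : S → ℝ) : ∃ L : V → ℝ, ∀ v : S, L v = l v := by
  classical
  refine ⟨fun v => if h : v ∈ S then l ⟨v, h⟩ else 0, fun v => ?_⟩
  simp

theorem spg_ovl_symm {V α : Type} [LinearOrder α] (l r : V → α) (u v : V) :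
    Ovl l r u v ↔ Ovl l r v u := by
  unfold Ovl
  exact or_comm

theorem spg_side {V : Type} (G : SimpleGraph V) (S : Set V) (b : V) (hb : b ∈ S)
    (l r : S → ℝ) (hM : Model (G.induce S) l r) (hmin : ∀ u, u ≠ ⟨b, hb⟩ → l ⟨b, hb⟩ < l u) :
    ∃ (L R : V → ℝ) (c : ℝ), (∀ u ∈ S, L u < R u) ∧ (∀ u ∈ S, ∀ v ∈ S, L u = L v → u = v) ∧
      (∀ u ∈ S, ∀ v ∈ S, R u = R v → u = v) ∧ (∀ u ∈ S, ∀ v ∈ S, L u ≠ R v) ∧
      (∀ u ∈ S, ∀ v ∈ S, (G.Adj u v ↔ Ovl L R u v)) ∧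
      ∀ u ∈ S, u ≠ b → (G.Adj b u ↔ (L u < c ∧ ¬ R u < c)) := by
  obtain ⟨L, hL⟩ := spg_total S l
  obtain ⟨R, hR⟩ := spg_total S r
  have hadj : ∀ u ∈ S, ∀ v ∈ S, (G.Adj u v ↔ Ovl L R u v) := by
    intro u hu v hv
    have := hM.adj ⟨u, hu⟩ ⟨v, hv⟩
    simp only [Ovl] at this
    rw [← hL, ← hL, ← hR, ← hR] at this
    simpa [Ovl] using this
  have hlt : ∀ u ∈ S, L u < R u := by
    intro u hu
    have := hM.lt ⟨u, hu⟩
    rwa [← hL, ← hR] at this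
  refine ⟨L, R, R b, hlt, ?_, ?_, ?_, hadj, ?_⟩
  · intro u hu v hv h
    have := hM.injl (a₁ := ⟨u, hu⟩) (a₂ := ⟨v, hv⟩) (by rw [← hL, ← hL]; exact h)
    exact congrArg Subtype.val this
  · intro u hu v hv h
    have := hM.injr (a₁ := ⟨u, hu⟩) (a₂ := ⟨v, hv⟩) (by rw [← hR, ← hR]; exact h)
    exact congrArg Subtype.val this
  · intro u hu v hv
    have := hM.ne ⟨u, hu⟩ ⟨v, hv⟩
    rwa [← hL, ← hR] at this
  · intro u hu hub
    have h1 : L b < L u := by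
      have := hmin ⟨u, hu⟩ (by intro h; exact hub (congrArg Subtype.val h))
      rwa [← hL, ← hL] at this
    have h2 : R u ≠ R b := by
      intro h
      apply hub
      have := hM.injr (a₁ := ⟨u, hu⟩) (a₂ := ⟨b, hb⟩) (by rw [← hR, ← hR]; exact h)
      exact congrArg Subtype.val this
    rw [hadj b hb u hu]
    unfold Ovl
    constructor
    · rintro (⟨_, h3, h4⟩ | ⟨h3, _, _⟩)
      · exact ⟨h3, not_lt.2 h4.le⟩
      · exact absurd h3 h1.not_gt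
    · rintro ⟨h3, h4⟩
      exact Or.inl ⟨h1, h3, lt_of_le_of_ne (not_lt.1 h4) h2.symm⟩

theorem st_SPG (hROT : HG.ST_ROT) (hXFER : HG.ST_XFER) : ST_SPG := by
  classical
  intro V _ G A a b hC ha hb hab h1 h2
  obtain ⟨l1, r1, hM1, hm1⟩ := hROT _ _ ⟨b, Set.mem_insert b A⟩ h1
  obtain ⟨l2, r2, hM2, hm2⟩ := hROT _ _ ⟨a, Set.mem_insert a Aᶜ⟩ h2
  obtain ⟨L1, R1, c1, lt1, il1, ir1, ne1, ad1, cr1⟩ := spg_side G _ b _ l1 r1 hM1 hm1
  obtain ⟨L2, R2, c2, lt2, il2, ir2, ne2, ad2, cr2⟩ := spg_side G _ a _ l2 r2 hM2 hm2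
  have mA : ∀ u ∈ A, u ∈ insert b A := fun u hu => Set.mem_insert_of_mem _ hu
  have mB : ∀ u, u ∉ A → u ∈ insert a Aᶜ := fun u hu => Set.mem_insert_of_mem _ hu
  have h02 : (0 : ℕ) < 2 := by norm_num
  have h13 : (1 : ℕ) < 3 := by norm_num
  set l : V → ℕ ×ₗ ℝ := fun v => if v ∈ A then spgf 0 2 c1 (L1 v) else spgf 1 3 c2 (L2 v) with hl
  set r : V → ℕ ×ₗ ℝ := fun v => if v ∈ A then spgf 0 2 c1 (R1 v) else spgf 1 3 c2 (R2 v) with hr
  have hlA : ∀ v ∈ A, l v = spgf 0 2 c1 (L1 v) := fun v hv => if_pos hv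
  have hlB : ∀ v, v ∉ A → l v = spgf 1 3 c2 (L2 v) := fun v hv => if_neg hv
  have hrA : ∀ v ∈ A, r v = spgf 0 2 c1 (R1 v) := fun v hv => if_pos hv
  have hrB : ∀ v, v ∉ A → r v = spgf 1 3 c2 (R2 v) := fun v hv => if_neg hv
  have hmix : ∀ u ∈ A, ∀ w, w ∉ A → (G.Adj u w ↔ Ovl l r u w) := by
    intro u hu w hw
    unfold Ovl
    rw [hlA u hu, hrA u hu, hlB w hw, hrB w hw,
      spgf_cross,
      ← cr1 u (mA u hu) (fun h => hb (h ▸ hu)), ← cr2 w (mB w hw) (fun h => hw (h ▸ ha))]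
    constructor
    · intro h
      exact ⟨(hC u hu a ha w hw b hb h hab).symm, hC a ha u hu b hb w hw hab h⟩
    · rintro ⟨h3, h4⟩
      exact hC u hu a ha b hb w hw h3.symm h4
  refine hXFER V (ℕ ×ₗ ℝ) G l r ⟨?_, ?_, ?_, ?_, ?_⟩
  · intro v
    by_cases hv : v ∈ A
    · rw [hlA v hv, hrA v hv, spgf_lt h02]
      exact lt1 v (mA v hv)
    · rw [hlB v hv, hrB v hv, spgf_lt h13]
      exact lt2 v (mB v hv)
  · intro u v h
    by_cases hu : u ∈ A <;> by_cases hv : v ∈ A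
    · rw [hlA u hu, hlA v hv] at h
      exact il1 u (mA u hu) v (mA v hv) (spgf_inj _ h)
    · rw [hlA u hu, hlB v hv] at h
      exact absurd h (spgf_ne _ _ _ _)
    · rw [hlB u hu, hlA v hv] at h
      exact absurd h.symm (spgf_ne _ _ _ _)
    · rw [hlB u hu, hlB v hv] at h
      exact il2 u (mB u hu) v (mB v hv) (spgf_inj _ h)
  · intro u v h
    by_cases hu : u ∈ A <;> by_cases hv : v ∈ A
    · rw [hrA u hu, hrA v hv] at h
      exact ir1 u (mA u hu) v (mA v hv) (spgf_inj _ h)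
    · rw [hrA u hu, hrB v hv] at h
      exact absurd h (spgf_ne _ _ _ _)
    · rw [hrB u hu, hrA v hv] at h
      exact absurd h.symm (spgf_ne _ _ _ _)
    · rw [hrB u hu, hrB v hv] at h
      exact ir2 u (mB u hu) v (mB v hv) (spgf_inj _ h)
  · intro u v h
    by_cases hu : u ∈ A <;> by_cases hv : v ∈ A
    · rw [hlA u hu, hrA v hv] at h
      exact ne1 u (mA u hu) v (mA v hv) (spgf_inj _ h)
    · rw [hlA u hu, hrB v hv] at h
      exact absurd h (spgf_ne _ _ _ _)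
    · rw [hlB u hu, hrA v hv] at h
      exact absurd h.symm (spgf_ne _ _ _ _)
    · rw [hlB u hu, hrB v hv] at h
      exact ne2 u (mB u hu) v (mB v hv) (spgf_inj _ h)
  · intro u v
    by_cases hu : u ∈ A <;> by_cases hv : v ∈ A
    · rw [ad1 u (mA u hu) v (mA v hv)]
      unfold Ovl
      rw [hlA u hu, hlA v hv, hrA u hu, hrA v hv]
      simp only [spgf_lt h02]
    · exact hmix u hu v hv
    · rw [G.adj_comm, spg_ovl_symm]
      exact hmix v hv u hu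
    · rw [ad2 u (mB u hu) v (mB v hv)]
      unfold Ovl
      rw [hlB u hu, hlB v hv, hrB u hu, hrB v hv]
      simp only [spgf_lt h13]

end Pool.Agent.Helper64.CT
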